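import Mathlib
import Pool.Agent.Lib.helper19.TradeMain

set_option autoImplicit false

namespace Pool.Agent.Results.MP_8a557e_co.NoPoly

open Pool.Agent.H19Trade Filter Topology

theorem result : ¬ ∃ p : Polynomial ℝ, ∀ (n : ℕ) (f : (Fin n → Bool) → Bool), Monotone f →
    ¬ Weighted f → ∃ j : ℕ, 1 ≤ j ∧ (j : ℝ) ≤ p.eval (n : ℝ) ∧ Trade f j := by
  rintro ⟨p, h⟩
  have key : ∀ q : Polynomial ℝ, Tendsto (fun m : ℕ => q.eval (m : ℝ) / 2 ^ m) atTop (𝓝 0) := by
    intro q
    induction q using Polynomial.induction_on' with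
    | add a b ha hb => simpa [add_div] using ha.add hb
    | monomial k c =>
      have := (tendsto_pow_const_div_const_pow_of_one_lt k (r := 2) (by norm_num)).const_mul c
      simpa [mul_div_assoc] using this
  have h1 := (key (p.comp (42 * (Polynomial.X + 1)))).eventually (gt_mem_nhds zero_lt_one)
  obtain ⟨m, hm1, hm2⟩ := (h1.and (eventually_ge_atTop 1)).exists
  obtain ⟨f, f1, f2, f3⟩ := main_fin m (42 * (m + 1)) hm2 le_rfl
  obtain ⟨j, j1, j2, j3⟩ := h _ f f1 f2
  have h2 : ((2 : ℝ) ^ m) ≤ j := by exact_mod_cast f3 j j1 j3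
  rw [div_lt_one (by positivity)] at hm1
  simp only [Polynomial.eval_comp, Polynomial.eval_mul, Polynomial.eval_add, Polynomial.eval_X,
    Polynomial.eval_one, Polynomial.eval_ofNat] at hm1
  push_cast at j2
  linarith

end Pool.Agent.Results.MP_8a557e_co.NoPoly
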